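import Mathlib

set_option autoImplicit false

namespace Pool.Agent.H.MP_b69c94_gt

open Set Filter Topology Cardinal

abbrev I : Type := (aleph 1).ord.ToType

theorem cIio (a : I) : (Iio a).Countable := by
  have h : #(Iio a) < aleph 1 := by simpa using mk_Iio_lt a
  rw [← le_aleph0_iff_set_countable]
  exact Order.lt_succ_iff.1 (h.trans_eq succ_aleph0.symm)

theorem cIic (a : I) : (Iic a).Countable := by
  rw [← Iio_insert]; exact (cIio a).insert a

theorem mkI : #I = aleph 1 := by simp [I]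

theorem uncI : ¬ (univ : Set I).Countable := by
  rw [← le_aleph0_iff_set_countable, mk_univ, mkI, not_le]
  exact aleph0_lt_aleph_one

theorem bdd {s : Set I} (hs : s.Countable) : ∃ b, ∀ a ∈ s, a < b := by
  by_contra h
  push Not at h
  refine uncI ((hs.biUnion fun a _ => cIic a).mono fun b _ => ?_)
  obtain ⟨a, ha, hb⟩ := h b
  exact mem_biUnion ha hb

theorem inj : ∃ e : I → ℕ → Bool, Function.Injective e := by
  have h : #I ≤ #(ℕ → Bool) := by
    rw [mkI]; simpa using aleph_one_le_continuum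
  obtain ⟨e⟩ := h
  exact ⟨e, e.injective⟩

def Stat (S : Set I) : Prop := ∀ (g : I → I) (b : I), ∃ d ∈ S, b < d ∧ ∀ a < d, g a < d

theorem stat_univ : Stat univ := by
  intro g b
  have h1 : ∀ c : I, ∃ d, c < d ∧ ∀ a < c, g a < d := by
    intro c
    obtain ⟨d, hd⟩ := bdd (((cIio c).image g).insert c)
    exact ⟨d, hd c (mem_insert _ _), fun a ha => hd _ (mem_insert_of_mem _ ⟨a, ha, rfl⟩)⟩
  choose F hF using h1
  obtain ⟨u, hu⟩ := bdd (countable_range fun k : ℕ => F^[k] b)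
  have hne : {u | ∀ k : ℕ, F^[k] b ≤ u}.Nonempty := ⟨u, fun k => (hu _ ⟨k, rfl⟩).le⟩
  let d := wellFounded_lt.min _ hne
  have hd : ∀ k : ℕ, F^[k] b ≤ d := wellFounded_lt.min_mem _ hne
  refine ⟨d, trivial, ?_, fun a ha => ?_⟩
  · exact lt_of_lt_of_le (hF b).1 (hd 1)
  · have : ¬ ∀ k : ℕ, F^[k] b ≤ a := fun h =>
      wellFounded_lt.not_lt_min {u | ∀ k : ℕ, F^[k] b ≤ u} (x := a) h ha
    push Not at this
    obtain ⟨k, hk⟩ := this
    have := hd (k + 1)
    rw [Function.iterate_succ_apply'] at this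
    exact lt_of_lt_of_le ((hF _).2 a hk) this

theorem two_stat : ∃ S : Bool → Set I, (∀ b, Stat (S b)) ∧ Disjoint (S true) (S false) := by
  obtain ⟨e, he⟩ := inj
  by_contra h
  have h1 : ∀ n : ℕ, ∃ c : Bool, ∃ (g : I → I) (b : I), ∀ d, b < d → (∀ a < d, g a < d) →
      e d n = c := by
    intro n
    by_contra h2
    push Not at h2
    refine h ⟨fun c => {d | e d n ≠ c}, fun c g b => ?_, ?_⟩
    · obtain ⟨d, h3, h4, h5⟩ := h2 c g b
      exact ⟨d, h5, h3, h4⟩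
    · rw [Set.disjoint_left]
      intro d h3 h4
      simp only [mem_ofPred_eq] at h3 h4
      cases hh : e d n <;> simp_all
  choose c g b hh using h1
  obtain ⟨B, hB⟩ := bdd (countable_range b)
  have h3 : ∀ a, ∃ u, ∀ n, g n a < u := fun a => by
    obtain ⟨u, hu⟩ := bdd (countable_range fun n => g n a)
    exact ⟨u, fun n => hu _ ⟨n, rfl⟩⟩
  choose G hG using h3
  have h4 : ∀ d, B < d → (∀ a < d, G a < d) → e d = c := fun d h5 h6 => funext fun n =>
    hh n d ((hB _ ⟨n, rfl⟩).trans h5) fun a ha => (hG a n).trans (h6 a ha)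
  obtain ⟨d1, -, h5, h6⟩ := stat_univ G B
  obtain ⟨d2, -, h7, h8⟩ := stat_univ G d1
  exact h7.ne (he ((h4 d1 h5 h6).trans (h4 d2 (h5.trans h7) h8).symm))

theorem cpat {s : Set I} (hs : s.Countable) :
    {q : Σ n : ℕ, Fin n → WithTop I | ∀ i, q.2 i = ⊤ ∨ ∃ a ∈ s, q.2 i = (a : WithTop I)}.Countable := by
  have h1 : (insert ⊤ ((fun a : I => (a : WithTop I)) '' s)).Countable := (hs.image _).insert _
  have h2 : ∀ n : ℕ, ((fun p : Fin n → WithTop I => (⟨n, p⟩ : Σ n : ℕ, Fin n → WithTop I)) ''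
      (univ.pi fun _ => insert ⊤ ((fun a : I => (a : WithTop I)) '' s))).Countable :=
    fun n => (countable_univ_pi fun _ => h1).image _
  refine (countable_iUnion h2).mono ?_
  rintro ⟨n, p⟩ hp
  refine mem_iUnion.2 ⟨n, p, fun i _ => ?_, rfl⟩
  rcases hp i with h | ⟨a, ha, h⟩
  · exact Or.inl h
  · exact Or.inr ⟨a, ha, h.symm⟩

theorem refl {S : Set I} (hS : Stat S) {K : Type} [Countable K]
    (P : K → (Σ n : ℕ, Fin n → WithTop I) → I → Prop) :
    ∃ d ∈ S, ∀ k q, (∀ i, q.2 i = ⊤ ∨ q.2 i < (d : WithTop I)) → (∃ b, P k q b) →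
      ∃ b < d, P k q b := by
  classical
  obtain ⟨b0, -⟩ := bdd countable_empty
  have h1 : ∀ k q, ∃ b, (∃ b, P k q b) → P k q b := fun k q => by
    by_cases h : ∃ b, P k q b
    · obtain ⟨b, hb⟩ := h
      exact ⟨b, fun _ => hb⟩
    · exact ⟨b0, fun h' => absurd h' h⟩
  choose f hf using h1
  have h2 : ∀ c : I, ∃ u, ∀ k (q : Σ n : ℕ, Fin n → WithTop I),
      (∀ i, q.2 i = ⊤ ∨ ∃ a ∈ Iic c, q.2 i = (a : WithTop I)) → f k q < u := by
    intro c
    obtain ⟨u, hu⟩ := bdd (countable_iUnion fun k => (cpat (cIic c)).image (f k))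
    exact ⟨u, fun k q hq => hu _ (mem_iUnion.2 ⟨k, q, hq, rfl⟩)⟩
  choose g hg using h2
  obtain ⟨d, hd, h3, h4⟩ := hS g b0
  refine ⟨d, hd, fun k q hq hP => ⟨f k q, ?_, hf k q hP⟩⟩
  have h5 : ∀ i, ∃ a < d, q.2 i = ⊤ ∨ q.2 i = (a : WithTop I) := fun i => by
    rcases hq i with h | h
    · exact ⟨b0, h3, Or.inl h⟩
    · obtain ⟨a, ha⟩ := WithTop.ne_top_iff_exists.1 h.ne_top
      exact ⟨a, by rw [← ha] at h; exact_mod_cast h, Or.inr ha.symm⟩
  choose a ha using h5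
  have h6 : ∃ c < d, ∀ i, a i ≤ c := by
    rcases isEmpty_or_nonempty (Fin q.1) with h | h
    · exact ⟨b0, h3, fun i => h.elim i⟩
    · obtain ⟨i, hi⟩ := Finite.exists_max a
      exact ⟨a i, (ha i).1, hi⟩
  obtain ⟨c, hc, h7⟩ := h6
  refine (hg c k q fun i => ?_).trans (h4 c hc)
  rcases (ha i).2 with h | h
  · exact Or.inl h
  · exact Or.inr ⟨a i, h7 i, h⟩

/-- the points. -/
def X (S : Bool → Set I) : Type :=
  {x : Bool × (ℕ → WithTop I) // ∃ d : I, (∀ a : I, (∃ n, x.2 n = a) ↔ a < d) ∧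
    (d ∈ S x.1 ∨ ∀ n, x.2 n ≠ ⊤)}

variable {S : Bool → Set I}

open Classical in
noncomputable def emb (x : X S) : Option (ℕ × I) → Bool
  | none => x.1.1
  | some p => decide (x.1.2 p.1 = p.2)

noncomputable instance : TopologicalSpace (X S) := TopologicalSpace.induced emb inferInstance

theorem emb_inj : Function.Injective (emb : X S → _) := by
  intro x y h
  have h1 : ∀ n (a : I), x.1.2 n = a ↔ y.1.2 n = a := fun n a => by
    have := congrFun h (some (n, a))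
    simpa [emb] using this
  refine Subtype.ext (Prod.ext (congrFun h none) (funext fun n => ?_))
  by_cases h2 : x.1.2 n = ⊤
  · by_contra h3
    obtain ⟨a, ha⟩ := WithTop.ne_top_iff_exists.1 (fun h4 => h3 (h2.trans h4.symm) : y.1.2 n ≠ ⊤)
    have := (h1 n a).2 ha.symm
    rw [h2] at this
    exact WithTop.top_ne_coe this
  · obtain ⟨a, ha⟩ := WithTop.ne_top_iff_exists.1 h2
    exact ha.symm.trans ((h1 n a).1 ha.symm).symm

instance : T35Space (X S) :=
  (⟨⟨rfl⟩, emb_inj⟩ : IsEmbedding (emb : X S → _)).t35Space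

def pat (x : X S) (n : ℕ) : Σ n : ℕ, Fin n → WithTop I := ⟨n, fun i => x.1.2 i⟩

def B (c : Bool) (q : Σ n : ℕ, Fin n → WithTop I) (b : I) : Set (X S) :=
  {y | y.1.1 = c ∧ ∀ i, (q.2 i = ⊤ → (b : WithTop I) < y.1.2 i) ∧ (q.2 i ≠ ⊤ → y.1.2 i = q.2 i)}

theorem basis {U : Set (X S)} (hU : IsOpen U) {x : X S} (hx : x ∈ U) :
    ∃ n b, B x.1.1 (pat x n) b ⊆ U := by
  obtain ⟨V, hV, rfl⟩ := isOpen_induced_iff.1 hU
  obtain ⟨J, u, h1, h2⟩ := isOpen_pi_iff.1 hV _ hx
  have hJ : {p : ℕ × I | some p ∈ J}.Finite :=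
    J.finite_toSet.preimage (Option.some_injective _).injOn
  obtain ⟨n, hn⟩ := (hJ.image Prod.fst).bddAbove
  obtain ⟨b, hb⟩ := bdd (hJ.image Prod.snd).countable
  refine ⟨n + 1, b, fun y hy => h2 fun j hj => ?_⟩
  have : emb y j = emb x j := by
    cases j with
    | none => exact hy.1
    | some p =>
      have h3 : p.1 < n + 1 := Nat.lt_succ_of_le (hn ⟨p, hj, rfl⟩)
      have h4 : p.2 < b := hb _ ⟨p, hj, rfl⟩
      have h5 := hy.2 ⟨p.1, h3⟩
      simp only [pat] at h5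
      simp only [emb, decide_eq_decide]
      by_cases h6 : x.1.2 p.1 = ⊤
      · have h7 := h5.1 h6
        rw [h6]
        refine ⟨fun h8 => ?_, fun h8 => absurd h8 WithTop.top_ne_coe⟩
        rw [h8] at h7
        exact absurd (WithTop.coe_lt_coe.1 h7) h4.not_gt
      · rw [h5.2 h6]
  rw [this]
  exact (h1 j hj).2

open Classical in
noncomputable def ret (d : Bool → I) (hd : ∀ c, d c ∈ S c) (x : X S) : X S :=
  ⟨(x.1.1, fun n => if x.1.2 n < d x.1.1 then x.1.2 n else ⊤), by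
    obtain ⟨e, h1, h2⟩ := x.2
    rcases le_or_gt e (d x.1.1) with h | h
    · have h3 : ∀ n, (if x.1.2 n < d x.1.1 then x.1.2 n else ⊤) = x.1.2 n := fun n => by
        split_ifs with h4
        · rfl
        · by_contra h5
          obtain ⟨a, ha⟩ := WithTop.ne_top_iff_exists.1 (Ne.symm h5)
          apply h4
          rw [← ha]
          exact WithTop.coe_lt_coe.2 (((h1 a).1 ⟨n, ha.symm⟩).trans_le h)
      simp only [h3]
      exact ⟨e, h1, h2⟩
    · refine ⟨d x.1.1, fun a => ⟨?_, fun ha => ?_⟩, Or.inl (hd _)⟩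
      · rintro ⟨n, hn⟩
        simp only at hn
        split_ifs at hn with h4
        · rw [hn] at h4; exact WithTop.coe_lt_coe.1 h4
        · exact absurd hn WithTop.top_ne_coe
      · obtain ⟨n, hn⟩ := (h1 a).2 (ha.trans h)
        refine ⟨n, ?_⟩
        simp only [hn]
        rw [if_pos (WithTop.coe_lt_coe.2 ha)]⟩

theorem ret_pat (d : Bool → I) (hd : ∀ c, d c ∈ S c) (x : X S) (n : ℕ) (i) :
    (pat (ret d hd x) n).2 i = ⊤ ∨ (pat (ret d hd x) n).2 i < (d x.1.1 : WithTop I) := by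
  simp only [pat, ret]
  split_ifs with h
  · exact Or.inr h
  · exact Or.inl rfl

theorem mem_B (d : Bool → I) (hd : ∀ c, d c ∈ S c) (x : X S) (n : ℕ) {b : I} (hb : b < d x.1.1) :
    x ∈ B x.1.1 (pat (ret d hd x) n) b := by
  refine ⟨rfl, fun i => ?_⟩
  simp only [pat, ret]
  split_ifs with h
  · exact ⟨fun h1 => absurd h1 h.ne_top, fun _ => rfl⟩
  · exact ⟨fun _ => (WithTop.coe_lt_coe.2 hb).trans_le (not_lt.1 h), fun h1 => absurd rfl h1⟩

theorem cpat2 (d : Bool → I) : {t : Bool × (Σ n : ℕ, Fin n → WithTop I) × I |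
    (∀ i, t.2.1.2 i = ⊤ ∨ t.2.1.2 i < (d t.1 : WithTop I)) ∧ t.2.2 < d t.1}.Countable := by
  refine (countable_iUnion fun c : Bool =>
    (countable_singleton c).prod ((cpat (cIio (d c))).prod (cIio (d c)))).mono ?_
  rintro ⟨c, q, b⟩ ⟨h1, h2⟩
  refine mem_iUnion.2 ⟨c, rfl, fun i => ?_, h2⟩
  rcases h1 i with h | h
  · exact Or.inl h
  · obtain ⟨a, ha⟩ := WithTop.ne_top_iff_exists.1 h.ne_top
    refine Or.inr ⟨a, ?_, ha.symm⟩
    simp only at h ha
    rw [← ha] at h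
    exact WithTop.coe_lt_coe.1 h

theorem lind (hS : ∀ c, Stat (S c)) : LindelofSpace (X S) := by
  refine ⟨isLindelof_of_countable_subcover fun {ι} U hU hc => ?_⟩
  have h1 := fun c => refl (hS c) (K := Unit) fun _ q b => ∃ j, B c q b ⊆ U j
  choose d hd h2 using h1
  have h3 := cpat2 d
  have h4 : ∀ t : {t : Bool × (Σ n : ℕ, Fin n → WithTop I) × I // ∃ j, B t.1 t.2.1 t.2.2 ⊆ U j},
      ∃ j, B t.1.1 t.1.2.1 t.1.2.2 ⊆ U j := fun t => t.2
  choose f hf using h4
  refine ⟨_, (h3.preimage Subtype.val_injective).image f, fun x _ => ?_⟩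
  obtain ⟨j, hj⟩ := mem_iUnion.1 (hc (mem_univ (ret d hd x)))
  obtain ⟨n, b, hb⟩ := basis (hU j) hj
  obtain ⟨b', h5, h6⟩ := h2 x.1.1 () _ (ret_pat d hd x n) ⟨b, j, hb⟩
  exact mem_biUnion (x := f ⟨(x.1.1, _, b'), h6⟩) ⟨_, ⟨ret_pat d hd x n, h5⟩, rfl⟩
    (hf ⟨(x.1.1, _, b'), h6⟩ (mem_B d hd x n h5))

theorem stable (hS : ∀ c, Stat (S c)) {Y Z : Type} [TopologicalSpace Y] [TopologicalSpace Z]
    [T1Space Z] [SecondCountableTopology Z] (h : X S → Y) (hh : Continuous h)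
    (hs : Function.Surjective h) (c : Y → Z) (hc : Continuous c) (hi : Function.Injective c) :
    ∃ N : Set (Set Y), N.Countable ∧ ∀ U, IsOpen U → ∀ y ∈ U, ∃ s ∈ N, y ∈ s ∧ s ⊆ U := by
  have := (TopologicalSpace.countable_countableBasis Z).to_subtype
  have h1 := fun e => refl (hS e) (K := TopologicalSpace.countableBasis Z)
    fun V q b => B e q b ⊆ (c ∘ h) ⁻¹' V.1
  choose d hd h2 using h1
  have h3 : ∀ x, h x = h (ret d hd x) := fun x => by
    apply hi
    by_contra h4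
    obtain ⟨V, hV, h5, h6⟩ := (TopologicalSpace.isBasis_countableBasis Z).exists_subset_of_mem_open
      (a := c (h (ret d hd x))) (u := {c (h x)}ᶜ) (Ne.symm h4) isOpen_compl_singleton
    obtain ⟨n, b, hb⟩ := basis (((TopologicalSpace.isBasis_countableBasis Z).isOpen hV).preimage
      (hc.comp hh)) (x := ret d hd x) h5
    obtain ⟨b', h7, h8⟩ := h2 x.1.1 ⟨V, hV⟩ _ (ret_pat d hd x n) ⟨b, hb⟩
    exact h6 (h8 (mem_B d hd x n h7)) rfl
  refine ⟨_, (countable_iUnion fun e : Bool => (cpat (cIio (d e))).image fun q =>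
    h '' {y | y.1.1 = e ∧ ∀ i, y.1.2 i.1 = q.2 i}), fun U hU y hy => ?_⟩
  obtain ⟨x, rfl⟩ := hs y
  rw [h3] at hy ⊢
  obtain ⟨n, b, hb⟩ := basis (hU.preimage hh) (x := ret d hd x) hy
  refine ⟨_, mem_iUnion.2 ⟨x.1.1, pat (ret d hd x) n, fun i => ?_, rfl⟩,
    ⟨ret d hd x, ⟨rfl, fun _ => rfl⟩, rfl⟩, ?_⟩
  · rcases ret_pat d hd x n i with h4 | h4
    · exact Or.inl h4
    · obtain ⟨a, ha⟩ := WithTop.ne_top_iff_exists.1 h4.ne_top
      refine Or.inr ⟨a, ?_, ha.symm⟩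
      rw [← ha] at h4
      exact WithTop.coe_lt_coe.1 h4
  · rintro _ ⟨z, hz, rfl⟩
    refine hb ⟨hz.1, fun i => ⟨fun h4 => ?_, fun _ => hz.2 i⟩⟩
    rw [hz.2 i, h4]
    exact WithTop.coe_lt_top b

theorem total (a : I) : ∃ w : ℕ → WithTop I, w 0 = a ∧ ∃ d : I,
    (∀ a : I, (∃ n, w n = a) ↔ a < d) ∧ ∀ n, w n ≠ ⊤ := by
  obtain ⟨d, hd⟩ := bdd (countable_singleton a)
  have h1 : a < d := hd a rfl
  obtain ⟨f, hf⟩ := (cIio d).exists_eq_range ⟨a, h1⟩
  refine ⟨fun n => Nat.casesOn n a fun m => f m, rfl, d, fun b => ⟨?_, fun hb => ?_⟩, fun n => ?_⟩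
  · rintro ⟨n, hn⟩
    cases n with
    | zero => rw [← WithTop.coe_inj.1 hn]; exact h1
    | succ m =>
      rw [← WithTop.coe_inj.1 hn]
      exact (hf ▸ mem_range_self m : f m ∈ Iio d)
  · obtain ⟨m, hm⟩ : b ∈ range f := hf ▸ hb
    exact ⟨m + 1, by rw [← hm]⟩
  · cases n <;> exact WithTop.coe_ne_top

theorem cont (j : Option (ℕ × I)) : Continuous fun x : X S => emb x j :=
  (continuous_apply j).comp (continuous_induced_dom (f := (emb : X S → _)))

theorem notlind (hS : Disjoint (S true) (S false)) : ¬ LindelofSpace (X S × X S) := by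
  intro hL
  let F : Set (X S × X S) := {z | emb z.1 none = true} ∩ {z | emb z.2 none = false} ∩
    ⋂ p, {z | emb z.1 (some p) = emb z.2 (some p)}
  have c1 : ∀ j, Continuous fun z : X S × X S => emb z.1 j := fun j => (cont j).comp continuous_fst
  have c2 : ∀ j, Continuous fun z : X S × X S => emb z.2 j := fun j => (cont j).comp continuous_snd
  have hF : IsClosed F :=
    ((isClosed_eq (c1 _) continuous_const).inter (isClosed_eq (c2 _) continuous_const)).inter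
      (isClosed_iInter fun p => isClosed_eq (c1 _) (c2 _))
  obtain ⟨r, hr, h1⟩ := hF.isLindelof.elim_countable_subcover
    (fun a : I => {z : X S × X S | emb z.1 (some (0, a)) = true})
    (fun a => (isOpen_discrete {true}).preimage (c1 _)) (by
      rintro ⟨x, y⟩ ⟨⟨h1, h2⟩, h3⟩
      have h4 : ∀ n (a : I), x.1.2 n = a ↔ y.1.2 n = a := fun n a => by
        have := mem_iInter.1 h3 (n, a)
        simpa [emb] using this
      obtain ⟨d, h5, h6⟩ := x.2
      obtain ⟨e, h7, h8⟩ := y.2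
      have h9 : d = e := eq_of_forall_lt_iff fun a => by
        rw [← h5, ← h7]; simp only [h4]
      have h10 : x.1.2 0 ≠ ⊤ := by
        rcases h6 with h6 | h6
        · rcases h8 with h8 | h8
          · have e1 : x.1.1 = true := h1
            have e2 : y.1.1 = false := h2
            rw [e1] at h6; rw [e2, ← h9] at h8
            exact absurd h8 (Set.disjoint_left.1 hS h6)
          · obtain ⟨a, ha⟩ := WithTop.ne_top_iff_exists.1 (h8 0)
            rw [(h4 0 a).2 ha.symm]; exact WithTop.coe_ne_top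
        · exact h6 0
      obtain ⟨a, ha⟩ := WithTop.ne_top_iff_exists.1 h10
      exact mem_iUnion.2 ⟨a, by simp [emb, ← ha]⟩)
  obtain ⟨a, ha⟩ := bdd hr
  obtain ⟨w, h2, d, h3, h4⟩ := total a
  have h5 : ((⟨(true, w), d, h3, Or.inr h4⟩ : X S), (⟨(false, w), d, h3, Or.inr h4⟩ : X S)) ∈ F :=
    ⟨⟨rfl, rfl⟩, mem_iInter.2 fun p => rfl⟩
  obtain ⟨b, hb, h6⟩ := mem_iUnion₂.1 (h1 h5)
  simp only [emb, mem_ofPred_eq, decide_eq_true_eq, h2, WithTop.coe_inj] at h6
  exact (ha b hb).ne h6.symm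

end Pool.Agent.H.MP_b69c94_gt
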